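import Pool.Agent.P.MP_c78104_lc.Fail

set_option autoImplicit false

open Pool.Agent.P.MP_c78104_lc

/-- Q1, negative answer: an omega-model of RCA0 + RCOLOR2 in which DNR fails. -/
theorem Pool.Agent.Results.MP_c78104_lc.NotDNR.result :
    ∃ I : Set (Set ℕ), IsModelRCA0 I ∧ RCOLOR2 I ∧ ¬ DNR I := by
  obtain ⟨I, h1, h2, h3, -⟩ := main
  exact ⟨I, h1, h2, h3⟩
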